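import Pool.Agent.Lib.MP_6ff8d9_an_h16.Nfe

/-!
# Self-adjoint matrices with a positive eigenvector and no negative one (row NFB, helper16)
-/

open Matrix
open scoped ComplexConjugate

namespace Pool.Agent.Lib.MP_6ff8d9_an.N2

noncomputable section

namespace Nf16

/-- the normal form of the block: real entries after a phase -/
def blk (a b d μ : ℝ) : Matrix (Fin 3) (Fin 3) ℂ :=
  !![(a : ℂ), -(b : ℂ), 0; (b : ℂ), (d : ℂ), 0; 0, 0, (μ : ℂ)]

lemma diag_JU {u : ℂ} (hu : u * conj u = 1) :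
    JU !![(1 : ℂ), 0, 0; 0, u, 0; 0, 0, 1] := by
  unfold JU
  ext i j
  fin_cases i <;> fin_cases j <;>
    simp [J3, Matrix.mul_apply, Fin.sum_univ_three, Matrix.diagonal_apply]
  linear_combination hu

/-- the phase -/
lemma phase {S : Matrix (Fin 3) (Fin 3) ℂ} (hS : dag S = S) {t : ℂ}
    (he : S *ᵥ (Pi.single 2 1) = t • (Pi.single 2 1 : Fin 3 → ℂ)) (ε : ℝ) (hε : ε ^ 2 = 1) :
    ∃ (B : Matrix (Fin 3) (Fin 3) ℂ) (a d μ : ℝ), JU B ∧
      S * B = B * blk a (ε * ‖S 1 0‖) d μ ∧ (a : ℂ) = S 0 0 ∧ (d : ℂ) = S 1 1 := by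
  obtain ⟨s00, s11, s22, s01, s02, s12⟩ := entries hS
  have e02 : S 0 2 = 0 := by simpa using congrFun he 0
  have e12 : S 1 2 = 0 := by simpa using congrFun he 1
  have e20 : S 2 0 = 0 := by
    have := s02
    rw [e02] at this
    have h2 : conj (S 2 0) = 0 := by linear_combination this
    simpa using h2
  have e21 : S 2 1 = 0 := by
    have := s12
    rw [e12] at this
    simpa using this.symm
  obtain ⟨a, ha⟩ := Complex.conj_eq_iff_real.1 s00
  obtain ⟨d, hd⟩ := Complex.conj_eq_iff_real.1 s11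
  obtain ⟨μ, hμ⟩ := Complex.conj_eq_iff_real.1 s22
  obtain ⟨u, hu, hu2⟩ : ∃ u : ℂ, u * conj u = 1 ∧ S 1 0 = u * ((ε * ‖S 1 0‖ : ℝ) : ℂ) := by
    by_cases h : S 1 0 = 0
    · exact ⟨1, by simp, by simp [h]⟩
    · have h' : (‖S 1 0‖ : ℂ) ≠ 0 := by
        have := norm_ne_zero_iff.2 h
        exact_mod_cast this
      have hεc : (ε : ℂ) ^ 2 = 1 := by exact_mod_cast hε
      have hmc : S 1 0 * conj (S 1 0) = (‖S 1 0‖ : ℂ) ^ 2 := by
        rw [Complex.mul_conj, Complex.normSq_eq_norm_sq]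
        push_cast
        ring
      refine ⟨ε * S 1 0 / ‖S 1 0‖, ?_, ?_⟩
      · simp only [map_div₀, map_mul, Complex.conj_ofReal]
        field_simp
        linear_combination (ε : ℂ) ^ 2 * hmc + (‖S 1 0‖ : ℂ) ^ 2 * hεc
      · push_cast
        field_simp
        linear_combination -hεc
  obtain ⟨b, hb⟩ : ∃ b : ℝ, b = ε * ‖S 1 0‖ := ⟨_, rfl⟩
  rw [← hb] at hu2 ⊢
  have e01 : S 0 1 = - (conj u * b) := by
    rw [s01, hu2, map_mul, Complex.conj_ofReal]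
  refine ⟨_, a, d, μ, diag_JU hu, ?_, ha.symm, hd.symm⟩
  ext i j
  rw [Matrix.mul_apply, Matrix.mul_apply, Fin.sum_univ_three, Fin.sum_univ_three]
  fin_cases i <;> fin_cases j <;>
    simp [blk, e02, e12, e20, e21, ha, hd, hμ, hu2, e01]
  · linear_combination (b : ℂ) * hu
  · ring

lemma boost_JU {C s : ℝ} (h : C ^ 2 - s ^ 2 = 1) :
    JU !![(C : ℂ), (s : ℂ), 0; (s : ℂ), (C : ℂ), 0; 0, 0, 1] := by
  have hc : (C : ℂ) ^ 2 - (s : ℂ) ^ 2 = 1 := by exact_mod_cast h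
  unfold JU
  ext i j
  fin_cases i <;> fin_cases j <;>
    simp [J3, Matrix.mul_apply, Fin.sum_univ_three, Matrix.diagonal_apply] <;>
    first
      | ring1
      | linear_combination hc
      | linear_combination -hc

/-- the boost -/
lemma boost (a b d μ : ℝ) (hb : 0 < b) (h : (a - d) ^ 2 < 4 * b ^ 2) :
    ∃ (B : Matrix (Fin 3) (Fin 3) ℂ) (k : ℝ), JU B ∧ 0 < k ∧
      blk a b d μ * B = B * blk ((a + d) / 2) k ((a + d) / 2) μ := by
  obtain ⟨δ, hδ⟩ : ∃ δ : ℝ, δ = (a - d) / 2 := ⟨_, rfl⟩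
  have h1 : δ ^ 2 < b ^ 2 := by rw [hδ]; linarith
  obtain ⟨k, hk⟩ : ∃ k : ℝ, k = Real.sqrt (b ^ 2 - δ ^ 2) := ⟨_, rfl⟩
  have hk0 : 0 < k := by rw [hk]; exact Real.sqrt_pos.2 (by linarith)
  have hk2 : k ^ 2 = b ^ 2 - δ ^ 2 := by rw [hk]; exact Real.sq_sqrt (by linarith)
  obtain ⟨n, hn⟩ : ∃ n : ℝ, n = Real.sqrt (2 * k * (b + k)) := ⟨_, rfl⟩
  have hn0 : 0 < n := by rw [hn]; exact Real.sqrt_pos.2 (by positivity)
  have hn2 : n ^ 2 = 2 * k * (b + k) := by rw [hn]; exact Real.sq_sqrt (by positivity)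
  have hJ : ((b + k) / n) ^ 2 - (δ / n) ^ 2 = 1 := by
    field_simp
    rw [hn2]
    linear_combination -hk2
  refine ⟨_, k, boost_JU hJ, hk0, ?_⟩
  have ha : a = (a + d) / 2 + δ := by rw [hδ]; ring
  have hd : d = (a + d) / 2 - δ := by rw [hδ]; ring
  obtain ⟨m, hm⟩ : ∃ m : ℝ, m = (a + d) / 2 := ⟨_, rfl⟩
  rw [← hm] at ha hd ⊢
  have hnc : (n : ℂ) ≠ 0 := by exact_mod_cast hn0.ne'
  have hkc : (k : ℂ) ^ 2 = (b : ℂ) ^ 2 - (δ : ℂ) ^ 2 := by exact_mod_cast hk2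
  rw [ha, hd]
  ext i j
  rw [Matrix.mul_apply, Matrix.mul_apply, Fin.sum_univ_three, Fin.sum_univ_three]
  fin_cases i <;> fin_cases j <;> simp [blk] <;> field_simp
  · ring
  · linear_combination hkc
  · linear_combination -hkc
  · ring

/-- the negative eigenvector if the eigenvalues are real and different -/
lemma neg_eig (a b d μ : ℝ) (hb : 0 < b) (h : 4 * b ^ 2 < (a - d) ^ 2) :
    ∃ (v : Fin 3 → ℂ) (s : ℝ), blk a b d μ *ᵥ v = (s : ℂ) • v ∧ (herm v v).re < 0 := by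
  obtain ⟨m, hm⟩ : ∃ m : ℝ, m = Real.sqrt ((a - d) ^ 2 - 4 * b ^ 2) := ⟨_, rfl⟩
  have hm0 : 0 < m := by rw [hm]; exact Real.sqrt_pos.2 (by linarith)
  have hm2 : m ^ 2 = (a - d) ^ 2 - 4 * b ^ 2 := by rw [hm]; exact Real.sq_sqrt (by linarith)
  have key : ∀ s : ℝ, s ^ 2 - (a + d) * s + a * d + b ^ 2 = 0 → (a - s) ^ 2 < b ^ 2 →
      ∃ (v : Fin 3 → ℂ) (s : ℝ), blk a b d μ *ᵥ v = (s : ℂ) • v ∧ (herm v v).re < 0 := by
    intro s hs hlt
    have hsc : (s : ℂ) ^ 2 - ((a : ℂ) + d) * s + a * d + (b : ℂ) ^ 2 = 0 := by exact_mod_cast hs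
    refine ⟨![(b : ℂ), (a : ℂ) - s, 0], s, ?_, ?_⟩
    · funext i
      simp only [Matrix.mulVec, dotProduct, Fin.sum_univ_three, Pi.smul_apply, smul_eq_mul]
      fin_cases i <;> simp [blk]
      · ring
      · linear_combination hsc
    · have e : herm ![(b : ℂ), (a : ℂ) - s, 0] ![(b : ℂ), (a : ℂ) - s, 0] =
          (((a - s) ^ 2 - b ^ 2 : ℝ) : ℂ) := by
        simp [herm]
        ring
      rw [e, Complex.ofReal_re]
      linarith
  by_cases hs : 0 < a - d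
  · refine key ((a + d + m) / 2) (by linear_combination hm2 / 4) ?_
    have h1 : m < a - d := by
      by_contra hc
      rw [not_lt] at hc
      have : (a - d) ^ 2 ≤ m ^ 2 := by gcongr
      nlinarith
    have h2 : a - (a + d + m) / 2 = (a - d - m) / 2 := by ring
    rw [h2]
    have h3 : (a - d - m) * (a - d + m) = 4 * b ^ 2 := by linear_combination -hm2
    have h4 : 0 < a - d - m := by linarith
    nlinarith
  · refine key ((a + d - m) / 2) (by linear_combination hm2 / 4) ?_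
    rw [not_lt] at hs
    have h1 : m < d - a := by
      by_contra hc
      rw [not_lt] at hc
      have : (d - a) ^ 2 ≤ m ^ 2 := by
        have : 0 ≤ d - a := by linarith
        gcongr
      nlinarith
    have h2 : a - (a + d - m) / 2 = -((d - a - m) / 2) := by ring
    rw [h2]
    have h3 : (d - a - m) * (d - a + m) = 4 * b ^ 2 := by linear_combination -hm2
    have h4 : 0 < d - a - m := by linarith
    nlinarith

lemma blk_h (τ k μ : ℝ) : blk τ k τ μ = (μ : ℂ) • (1 : Matrix (Fin 3) (Fin 3) ℂ) +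
    hmat (τ - μ) k := by
  ext i j
  fin_cases i <;> fin_cases j <;> simp [blk, hmat]

lemma blk_p (a b d μ : ℝ) (h : a - d = 2 * b) :
    blk a b d μ = (μ : ℂ) • (1 : Matrix (Fin 3) (Fin 3) ℂ) + pmat ((a + d) / 2 - μ) b := by
  have hc : (a : ℂ) - d = 2 * b := by exact_mod_cast h
  ext i j
  fin_cases i <;> fin_cases j <;> simp [blk, pmat]
  · linear_combination hc / 2
  · linear_combination -hc / 2

lemma not_cyc_p (μ b : ℝ) :
    ¬ Cyc ((μ : ℂ) • (1 : Matrix (Fin 3) (Fin 3) ℂ) + pmat 0 b) := by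
  rintro ⟨Z, hZ⟩
  apply hZ
  have e : ∀ Z : Fin 3 → ℂ, ((μ : ℂ) • (1 : Matrix (Fin 3) (Fin 3) ℂ) + pmat 0 b) *ᵥ Z =
      ![μ * Z 0 + b * (Z 0 - Z 1), μ * Z 1 + b * (Z 0 - Z 1), μ * Z 2] := by
    intro Z
    funext i
    simp only [Matrix.mulVec, dotProduct, Fin.sum_univ_three]
    fin_cases i <;> simp [pmat] <;> ring
  rw [e, e, Matrix.det_fin_three]
  simp
  ring

end Nf16

open Nf16 in
theorem nfb : NFB := by
  intro T hT hcyc hno ⟨v, t, htv, hpos⟩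
  obtain ⟨r, hr, hrv⟩ := scale hpos.ne'
  have hm1 : herm ((r : ℂ) • v) ((r : ℂ) • v) = 1 := by
    rw [hrv, abs_of_pos hpos, div_self hpos.ne']
    simp
  obtain ⟨A, hA, c, hc, hAe⟩ := exists_move_pos hm1
  have h1 : (A⁻¹ * T * A) *ᵥ (Pi.single 2 1) = t • (Pi.single 2 1 : Fin 3 → ℂ) :=
    conj_eig hA hAe (by rw [mulVec_smul, htv, smul_comm])
  have hS : dag (A⁻¹ * T * A) = A⁻¹ * T * A := hA.dag_conj hT
  -- no negative eigenvector after a change of basis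
  have hno' : ∀ (B D : Matrix (Fin 3) (Fin 3) ℂ), JU B → T * B = B * D →
      ∀ (w : Fin 3 → ℂ) (s : ℂ), D *ᵥ w = s • w → 0 ≤ (herm w w).re := by
    intro B D hB hBD w s hw
    have h2 : T *ᵥ (B *ᵥ w) = s • (B *ᵥ w) := by
      rw [mulVec_mulVec, hBD, ← mulVec_mulVec, hw, mulVec_smul]
    have h3 := hno _ _ h2
    rwa [hB.herm] at h3
  -- the general shape
  have shape : ∀ ε : ℝ, ε ^ 2 = 1 → ∃ (B : Matrix (Fin 3) (Fin 3) ℂ) (a d μ : ℝ), JU B ∧
      T * B = B * blk a (ε * ‖(A⁻¹ * T * A) 1 0‖) d μ ∧ (a : ℂ) = (A⁻¹ * T * A) 0 0 ∧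
      (d : ℂ) = (A⁻¹ * T * A) 1 1 := by
    intro ε hε
    obtain ⟨B, a, d, μ, hB, h2, h3, h4⟩ := phase hS h1 ε hε
    exact ⟨A * B, a, d, μ, hA.mul hB, assemble hA h2, h3, h4⟩
  obtain ⟨β, hβ⟩ : ∃ β : ℝ, β = ‖(A⁻¹ * T * A) 1 0‖ := ⟨_, rfl⟩
  rw [← hβ] at shape
  obtain ⟨B, a, d, μ, hB, hTB, haS, hdS⟩ := shape 1 (by norm_num)
  rw [one_mul] at hTB
  have hβ0 : 0 < β := by
    rcases (norm_nonneg ((A⁻¹ * T * A) 1 0)).lt_or_eq with h | h
    · rw [hβ]; exact h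
    · exfalso
      rw [← hβ] at h
      have h2 := hno' B _ hB hTB ![1, 0, 0] a (by
        rw [← h]
        funext i
        simp only [Matrix.mulVec, dotProduct, Fin.sum_univ_three, Pi.smul_apply, smul_eq_mul]
        fin_cases i <;> simp [blk])
      simp [herm] at h2
      linarith
  have hdisc : (a - d) ^ 2 ≤ 4 * β ^ 2 := by
    by_contra hcon
    rw [not_le] at hcon
    obtain ⟨w, s, hw, hneg⟩ := neg_eig a β d μ hβ0 hcon
    have := hno' B _ hB hTB w s hw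
    linarith
  -- the parabolic case
  have para : ∀ (B : Matrix (Fin 3) (Fin 3) ℂ) (a b d μ : ℝ), JU B → b ≠ 0 →
      T * B = B * blk a b d μ → a - d = 2 * b →
      ∃ (A : Matrix (Fin 3) (Fin 3) ℂ) (μ τ b : ℝ), Aᴴ * J3 * A = J3 ∧ b ≠ 0 ∧
        (T * A = A * ((μ : ℂ) • (1 : Matrix (Fin 3) (Fin 3) ℂ) + hmat τ b) ∨
          (τ ≠ 0 ∧ T * A = A * ((μ : ℂ) • (1 : Matrix (Fin 3) (Fin 3) ℂ) + pmat τ b))) := by
    intro B a b d μ hB hb hTB had
    rw [blk_p a b d μ had] at hTB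
    refine ⟨B, μ, (a + d) / 2 - μ, b, hB, hb, Or.inr ⟨?_, hTB⟩⟩
    intro h0
    rw [h0] at hTB
    have hcB := hB.cyc_conj hcyc
    rw [mul_assoc, hTB, ← mul_assoc, hB.inv_mul, one_mul] at hcB
    exact not_cyc_p μ b hcB
  rcases hdisc.lt_or_eq with hlt | heq
  · obtain ⟨B', k, hB', hk, h2⟩ := boost a β d μ hβ0 hlt
    refine ⟨B * B', μ, (a + d) / 2 - μ, k, hB.mul hB', hk.ne', Or.inl ?_⟩
    rw [← blk_h]
    calc T * (B * B') = (T * B) * B' := by rw [mul_assoc]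
      _ = B * (blk a β d μ * B') := by rw [hTB, mul_assoc]
      _ = (B * B') * blk ((a + d) / 2) k ((a + d) / 2) μ := by rw [h2, mul_assoc]
  · have h3 : (a - d - 2 * β) * (a - d + 2 * β) = 0 := by linear_combination heq
    rcases mul_eq_zero.1 h3 with h4 | h4
    · exact para B a β d μ hB hβ0.ne' hTB (by linarith)
    · obtain ⟨B₂, a₂, d₂, μ₂, hB₂, hTB₂, ha₂, hd₂⟩ := shape (-1) (by norm_num)
      have e1 : a₂ = a := by
        have : (a₂ : ℂ) = a := by rw [ha₂, haS]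
        exact_mod_cast this
      have e2 : d₂ = d := by
        have : (d₂ : ℂ) = d := by rw [hd₂, hdS]
        exact_mod_cast this
      rw [e1, e2] at hTB₂
      have hneg : (-1 : ℝ) * β < 0 := by linarith
      exact para B₂ a (-1 * β) d μ₂ hB₂ hneg.ne hTB₂ (by linarith)

end

end Pool.Agent.Lib.MP_6ff8d9_an.N2
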