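import Pool.Agent.Lib.MP_6ff8d9_an_h23.Refl

/-!
# Self-adjoint matrices with a negative eigenvector (row NFE, helper16)
-/

open Matrix
open scoped ComplexConjugate

namespace Pool.Agent.Lib.MP_6ff8d9_an.N2

noncomputable section

namespace Nf16

/-- the entries of a self-adjoint matrix -/
lemma entries {T : Matrix (Fin 3) (Fin 3) ℂ} (hT : dag T = T) :
    conj (T 0 0) = T 0 0 ∧ conj (T 1 1) = T 1 1 ∧ conj (T 2 2) = T 2 2 ∧
      T 0 1 = - conj (T 1 0) ∧ T 0 2 = - conj (T 2 0) ∧ T 1 2 = conj (T 2 1) := by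
  have h : ∀ i j, (dag T) i j = T i j := fun i j => by rw [hT]
  have e : ∀ i j, (dag T) i j = (![-1, 1, 1] : Fin 3 → ℂ) i * conj (T j i) *
      (![-1, 1, 1] : Fin 3 → ℂ) j := by
    intro i j
    unfold dag J3
    rw [Matrix.mul_diagonal, Matrix.diagonal_mul, Matrix.conjTranspose_apply]
    rfl
  have h00 := h 0 0
  have h11 := h 1 1
  have h22 := h 2 2
  have h01 := h 0 1
  have h02 := h 0 2
  have h12 := h 1 2
  rw [e] at h00 h11 h22 h01 h02 h12
  simp at h00 h11 h22 h01 h02 h12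
  exact ⟨h00, h11, h22, h01.symm, h02.symm, h12.symm⟩

/-- a vector with nonzero norm can be moved to a unit vector -/
lemma scale {v : Fin 3 → ℂ} (hv : (herm v v).re ≠ 0) :
    ∃ r : ℝ, 0 < r ∧ herm ((r : ℂ) • v) ((r : ℂ) • v) =
      (((herm v v).re / |(herm v v).re| : ℝ) : ℂ) := by
  set x := (herm v v).re with hx
  have hx0 : 0 < |x| := abs_pos.2 hv
  have h1 : herm v v = (x : ℂ) := by
    apply Complex.ext
    · simp [hx]
    · simp [herm_self_im]
  refine ⟨(Real.sqrt |x|)⁻¹, by positivity, ?_⟩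
  rw [herm_smul_left, herm_smul_right, h1, Complex.conj_ofReal]
  have h2 : (Real.sqrt |x|)⁻¹ * ((Real.sqrt |x|)⁻¹ * x) = x / |x| := by
    have := Real.mul_self_sqrt hx0.le
    rw [← mul_assoc, ← mul_inv, this]
    field_simp
  exact_mod_cast h2

lemma conj_eig {A T : Matrix (Fin 3) (Fin 3) ℂ} (hA : JU A) {e v : Fin 3 → ℂ} {c t : ℂ}
    (h1 : A *ᵥ e = c • v) (h2 : T *ᵥ v = t • v) : (A⁻¹ * T * A) *ᵥ e = t • e := by
  have h3 : A⁻¹ *ᵥ (c • v) = e := by
    rw [← h1, mulVec_mulVec, hA.inv_mul, one_mulVec]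
  rw [← mulVec_mulVec, ← mulVec_mulVec, h1, mulVec_smul, h2, smul_comm c t v, mulVec_smul, h3]

lemma assemble {A B T D : Matrix (Fin 3) (Fin 3) ℂ} (hA : JU A)
    (h : (A⁻¹ * T * A) * B = B * D) : T * (A * B) = (A * B) * D := by
  calc T * (A * B) = (A * A⁻¹) * T * (A * B) := by rw [hA.mul_inv, one_mul]
    _ = A * ((A⁻¹ * T * A) * B) := by noncomm_ring
    _ = A * (B * D) := by rw [h]
    _ = (A * B) * D := by rw [mul_assoc]

/-- an eigenvector of a Hermitian matrix of order two -/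
lemma eig2 (p r : ℝ) (q : ℂ) : ∃ (x y : ℂ) (s : ℝ), x * conj x + y * conj y = 1 ∧
    (p : ℂ) * x + q * y = s * x ∧ conj q * x + (r : ℂ) * y = s * y := by
  by_cases hq : q = 0
  · exact ⟨1, 0, p, by simp, by simp, by simp [hq]⟩
  set m := Real.sqrt (((p - r) / 2) ^ 2 + ‖q‖ ^ 2) with hm
  set s := (p + r) / 2 + m with hs
  have hm2 : m ^ 2 = ((p - r) / 2) ^ 2 + ‖q‖ ^ 2 := Real.sq_sqrt (by positivity)
  have h1 : (s - p) * (s - r) = ‖q‖ ^ 2 := by
    rw [hs]
    linear_combination hm2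
  have hqn : 0 < ‖q‖ := norm_pos_iff.2 hq
  set n := Real.sqrt (‖q‖ ^ 2 + (s - p) ^ 2) with hn
  have hn2 : n ^ 2 = ‖q‖ ^ 2 + (s - p) ^ 2 := Real.sq_sqrt (by positivity)
  have hn0 : 0 < n := Real.sqrt_pos.2 (by positivity)
  have hnc : (n : ℂ) ≠ 0 := by exact_mod_cast hn0.ne'
  have hqq : q * conj q = ((‖q‖ ^ 2 : ℝ) : ℂ) := by
    rw [Complex.mul_conj, Complex.normSq_eq_norm_sq]
  have h1c : ((s : ℂ) - p) * ((s : ℂ) - r) = ((‖q‖ ^ 2 : ℝ) : ℂ) := by exact_mod_cast h1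
  have hn2c : (n : ℂ) ^ 2 = ((‖q‖ ^ 2 : ℝ) : ℂ) + ((s : ℂ) - p) ^ 2 := by exact_mod_cast hn2
  refine ⟨q / n, ((s : ℂ) - p) / n, s, ?_, ?_, ?_⟩
  · simp only [map_div₀, map_sub, Complex.conj_ofReal]
    field_simp
    rw [hn2c, ← hqq]
  · field_simp
    try ring1
  · field_simp
    linear_combination hqq - h1c

end Nf16

open Nf16 in
theorem nfe : NFE := by
  intro T hT hcyc ⟨v, t, htv, hneg⟩
  obtain ⟨r, hr, hrv⟩ := scale hneg.ne
  have hm1 : herm ((r : ℂ) • v) ((r : ℂ) • v) = -1 := by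
    rw [hrv, abs_of_neg hneg, div_neg, div_self hneg.ne]
    simp
  obtain ⟨A, hA, c, hc, hAe⟩ := exists_move_neg hm1
  have h1 : (A⁻¹ * T * A) *ᵥ (Pi.single 0 1) = t • (Pi.single 0 1 : Fin 3 → ℂ) :=
    conj_eig hA hAe (by rw [mulVec_smul, htv, smul_comm])
  have hS : dag (A⁻¹ * T * A) = A⁻¹ * T * A := hA.dag_conj hT
  have hC : Cyc (A⁻¹ * T * A) := hA.cyc_conj hcyc
  obtain ⟨S, hSdef⟩ : ∃ S, S = A⁻¹ * T * A := ⟨_, rfl⟩
  rw [← hSdef] at h1 hS hC
  obtain ⟨s00, s11, s22, s01, s02, s12⟩ := entries hS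
  have e00 : S 0 0 = t := by simpa using congrFun h1 0
  have e10 : S 1 0 = 0 := by simpa using congrFun h1 1
  have e20 : S 2 0 = 0 := by simpa using congrFun h1 2
  have e01 : S 0 1 = 0 := by rw [s01, e10]; simp
  have e02 : S 0 2 = 0 := by rw [s02, e20]; simp
  obtain ⟨t0, ht0⟩ : ∃ t0 : ℝ, S 0 0 = t0 := ⟨_, (Complex.conj_eq_iff_real.1 s00).choose_spec⟩
  obtain ⟨p, hp⟩ : ∃ p : ℝ, S 1 1 = p := ⟨_, (Complex.conj_eq_iff_real.1 s11).choose_spec⟩
  obtain ⟨q, hq⟩ : ∃ q : ℝ, S 2 2 = q := ⟨_, (Complex.conj_eq_iff_real.1 s22).choose_spec⟩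
  have e21 : S 2 1 = conj (S 1 2) := by rw [s12, Complex.conj_conj]
  obtain ⟨x, y, s, hxy, h2, h3⟩ := eig2 p q (S 1 2)
  have h2' : (p : ℂ) * conj x + conj (S 1 2) * conj y = s * conj x := by
    have := congrArg conj h2
    simpa using this
  have h3' : S 1 2 * conj x + (q : ℂ) * conj y = s * conj y := by
    have := congrArg conj h3
    simpa using this
  set B : Matrix (Fin 3) (Fin 3) ℂ := !![1, 0, 0; 0, x, - conj y; 0, y, conj x] with hB
  set D : Fin 3 → ℝ := ![t0, s, p + q - s] with hD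
  have hBJ : JU B := by
    unfold JU
    ext i j
    fin_cases i <;> fin_cases j <;>
      simp [hB, J3, Matrix.mul_apply, Fin.sum_univ_three, Matrix.diagonal_apply] <;>
      first
        | ring1
        | linear_combination hxy
  have hSB : S * B = B * Matrix.diagonal (fun i => (D i : ℂ)) := by
    ext i j
    rw [Matrix.mul_diagonal, Matrix.mul_apply, Fin.sum_univ_three]
    fin_cases i <;> fin_cases j <;>
      simp [hB, hD, e01, e02, e10, e20, ht0, hp, hq, e21]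
    · linear_combination h2
    · linear_combination h3'
    · linear_combination h3
    · linear_combination -h2'
  refine ⟨A * B, D, hA.mul hBJ, assemble hA (by rw [← hSdef]; exact hSB), ?_⟩
  -- the eigenvalues are different
  have hSD : B⁻¹ * S * B = Matrix.diagonal (fun i => (D i : ℂ)) := by
    rw [mul_assoc, hSB, ← mul_assoc, hBJ.inv_mul, one_mul]
  have hC2 := hBJ.cyc_conj hC
  rw [hSD] at hC2
  obtain ⟨Z, hZ⟩ := hC2
  have hdet : (Matrix.of ![Z, Matrix.diagonal (fun i => (D i : ℂ)) *ᵥ Z,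
      Matrix.diagonal (fun i => (D i : ℂ)) *ᵥ (Matrix.diagonal (fun i => (D i : ℂ)) *ᵥ Z)]).det =
      Z 0 * Z 1 * Z 2 * (((D 1 : ℂ) - D 0) * ((D 2 : ℂ) - D 0) * ((D 2 : ℂ) - D 1)) := by
    rw [Matrix.det_fin_three]
    simp [Matrix.mulVec_diagonal]
    ring
  rw [hdet] at hZ
  have hD3 := right_ne_zero_of_mul hZ
  have d21 := right_ne_zero_of_mul hD3
  have d10 := left_ne_zero_of_mul (left_ne_zero_of_mul hD3)
  have d20 := right_ne_zero_of_mul (left_ne_zero_of_mul hD3)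
  have n21 : D 2 ≠ D 1 := fun h => d21 (by rw [h, sub_self])
  have n10 : D 1 ≠ D 0 := fun h => d10 (by rw [h, sub_self])
  have n20 : D 2 ≠ D 0 := fun h => d20 (by rw [h, sub_self])
  intro i j hij
  fin_cases i <;> fin_cases j
  · rfl
  · exact absurd hij.symm n10
  · exact absurd hij.symm n20
  · exact absurd hij n10
  · rfl
  · exact absurd hij.symm n21
  · exact absurd hij n20
  · exact absurd hij n21
  · rfl

end

end Pool.Agent.Lib.MP_6ff8d9_an.N2
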