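import Pool.Agent.Lib.MP_6ff8d9_an_h16.Nfe
import Pool.Agent.Lib.MP_6ff8d9_an_h16.Nfb
import Pool.Agent.Lib.MP_6ff8d9_an_h8.SymRows

/-!
# Normal forms without cyclicity (rows NFE2, NFB2, helper16)
-/

open Matrix
open scoped ComplexConjugate

namespace Pool.Agent.Lib.MP_6ff8d9_an.N2

noncomputable section

open Nf16 in
theorem nfe2 : NFE2 := by
  intro T hT ⟨v, t, htv, hneg⟩
  obtain ⟨r, hr, hrv⟩ := scale hneg.ne
  have hm1 : herm ((r : ℂ) • v) ((r : ℂ) • v) = -1 := by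
    rw [hrv, abs_of_neg hneg, div_neg, div_self hneg.ne]
    simp
  obtain ⟨A, hA, c, hc, hAe⟩ := exists_move_neg hm1
  have h1 : (A⁻¹ * T * A) *ᵥ (Pi.single 0 1) = t • (Pi.single 0 1 : Fin 3 → ℂ) :=
    conj_eig hA hAe (by rw [mulVec_smul, htv, smul_comm])
  have hS : dag (A⁻¹ * T * A) = A⁻¹ * T * A := hA.dag_conj hT
  obtain ⟨S, hSdef⟩ : ∃ S, S = A⁻¹ * T * A := ⟨_, rfl⟩
  rw [← hSdef] at h1 hS
  obtain ⟨s00, s11, s22, s01, s02, s12⟩ := entries hS
  have e00 : S 0 0 = t := by simpa using congrFun h1 0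
  have e10 : S 1 0 = 0 := by simpa using congrFun h1 1
  have e20 : S 2 0 = 0 := by simpa using congrFun h1 2
  have e01 : S 0 1 = 0 := by rw [s01, e10]; simp
  have e02 : S 0 2 = 0 := by rw [s02, e20]; simp
  obtain ⟨t0, ht0⟩ : ∃ t0 : ℝ, S 0 0 = t0 := ⟨_, (Complex.conj_eq_iff_real.1 s00).choose_spec⟩
  obtain ⟨p, hp⟩ : ∃ p : ℝ, S 1 1 = p := ⟨_, (Complex.conj_eq_iff_real.1 s11).choose_spec⟩
  obtain ⟨q, hq⟩ : ∃ q : ℝ, S 2 2 = q := ⟨_, (Complex.conj_eq_iff_real.1 s22).choose_spec⟩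
  have e21 : S 2 1 = conj (S 1 2) := by rw [s12, Complex.conj_conj]
  obtain ⟨x, y, s, hxy, h2, h3⟩ := eig2 p q (S 1 2)
  have h2' : (p : ℂ) * conj x + conj (S 1 2) * conj y = s * conj x := by
    have := congrArg conj h2
    simpa using this
  have h3' : S 1 2 * conj x + (q : ℂ) * conj y = s * conj y := by
    have := congrArg conj h3
    simpa using this
  set B : Matrix (Fin 3) (Fin 3) ℂ := !![1, 0, 0; 0, x, - conj y; 0, y, conj x] with hB
  set D : Fin 3 → ℝ := ![t0, s, p + q - s] with hD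
  have hBJ : JU B := by
    unfold JU
    ext i j
    fin_cases i <;> fin_cases j <;>
      simp [hB, J3, Matrix.mul_apply, Fin.sum_univ_three, Matrix.diagonal_apply] <;>
      first
        | ring1
        | linear_combination hxy
  have hSB : S * B = B * Matrix.diagonal (fun i => (D i : ℂ)) := by
    ext i j
    rw [Matrix.mul_diagonal, Matrix.mul_apply, Fin.sum_univ_three]
    fin_cases i <;> fin_cases j <;>
      simp [hB, hD, e01, e02, e10, e20, ht0, hp, hq, e21]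
    · linear_combination h2
    · linear_combination h3'
    · linear_combination h3
    · linear_combination -h2'
  refine ⟨A * B, D, hA.mul hBJ, assemble hA (by rw [← hSdef]; exact hSB)⟩

open Nf16 in
theorem nfb2 : NFB2 := by
  intro T hT hno ⟨v, t, htv, hpos⟩
  obtain ⟨r, hr, hrv⟩ := scale hpos.ne'
  have hm1 : herm ((r : ℂ) • v) ((r : ℂ) • v) = 1 := by
    rw [hrv, abs_of_pos hpos, div_self hpos.ne']
    simp
  obtain ⟨A, hA, c, hc, hAe⟩ := exists_move_pos hm1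
  have h1 : (A⁻¹ * T * A) *ᵥ (Pi.single 2 1) = t • (Pi.single 2 1 : Fin 3 → ℂ) :=
    conj_eig hA hAe (by rw [mulVec_smul, htv, smul_comm])
  have hS : dag (A⁻¹ * T * A) = A⁻¹ * T * A := hA.dag_conj hT
  -- no negative eigenvector after a change of basis
  have hno' : ∀ (B D : Matrix (Fin 3) (Fin 3) ℂ), JU B → T * B = B * D →
      ∀ (w : Fin 3 → ℂ) (s : ℂ), D *ᵥ w = s • w → 0 ≤ (herm w w).re := by
    intro B D hB hBD w s hw
    have h2 : T *ᵥ (B *ᵥ w) = s • (B *ᵥ w) := by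
      rw [mulVec_mulVec, hBD, ← mulVec_mulVec, hw, mulVec_smul]
    have h3 := hno _ _ h2
    rwa [hB.herm] at h3
  -- the general shape
  have shape : ∀ ε : ℝ, ε ^ 2 = 1 → ∃ (B : Matrix (Fin 3) (Fin 3) ℂ) (a d μ : ℝ), JU B ∧
      T * B = B * blk a (ε * ‖(A⁻¹ * T * A) 1 0‖) d μ ∧ (a : ℂ) = (A⁻¹ * T * A) 0 0 ∧
      (d : ℂ) = (A⁻¹ * T * A) 1 1 := by
    intro ε hε
    obtain ⟨B, a, d, μ, hB, h2, h3, h4⟩ := phase hS h1 ε hε
    exact ⟨A * B, a, d, μ, hA.mul hB, assemble hA h2, h3, h4⟩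
  obtain ⟨β, hβ⟩ : ∃ β : ℝ, β = ‖(A⁻¹ * T * A) 1 0‖ := ⟨_, rfl⟩
  rw [← hβ] at shape
  obtain ⟨B, a, d, μ, hB, hTB, haS, hdS⟩ := shape 1 (by norm_num)
  rw [one_mul] at hTB
  have hβ0 : 0 < β := by
    rcases (norm_nonneg ((A⁻¹ * T * A) 1 0)).lt_or_eq with h | h
    · rw [hβ]; exact h
    · exfalso
      rw [← hβ] at h
      have h2 := hno' B _ hB hTB ![1, 0, 0] a (by
        rw [← h]
        funext i
        simp only [Matrix.mulVec, dotProduct, Fin.sum_univ_three, Pi.smul_apply, smul_eq_mul]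
        fin_cases i <;> simp [blk])
      simp [herm] at h2
      linarith
  have hdisc : (a - d) ^ 2 ≤ 4 * β ^ 2 := by
    by_contra hcon
    rw [not_le] at hcon
    obtain ⟨w, s, hw, hneg⟩ := neg_eig a β d μ hβ0 hcon
    have := hno' B _ hB hTB w s hw
    linarith
  -- the parabolic case
  have para : ∀ (B : Matrix (Fin 3) (Fin 3) ℂ) (a b d μ : ℝ), JU B → b ≠ 0 →
      T * B = B * blk a b d μ → a - d = 2 * b →
      ∃ (A : Matrix (Fin 3) (Fin 3) ℂ) (μ τ b : ℝ), Aᴴ * J3 * A = J3 ∧ b ≠ 0 ∧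
        (T * A = A * ((μ : ℂ) • (1 : Matrix (Fin 3) (Fin 3) ℂ) + hmat τ b) ∨
          T * A = A * ((μ : ℂ) • (1 : Matrix (Fin 3) (Fin 3) ℂ) + pmat τ b)) := by
    intro B a b d μ hB hb hTB had
    rw [blk_p a b d μ had] at hTB
    exact ⟨B, μ, (a + d) / 2 - μ, b, hB, hb, Or.inr hTB⟩
  rcases hdisc.lt_or_eq with hlt | heq
  · obtain ⟨B', k, hB', hk, h2⟩ := boost a β d μ hβ0 hlt
    refine ⟨B * B', μ, (a + d) / 2 - μ, k, hB.mul hB', hk.ne', Or.inl ?_⟩
    rw [← blk_h]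
    calc T * (B * B') = (T * B) * B' := by rw [mul_assoc]
      _ = B * (blk a β d μ * B') := by rw [hTB, mul_assoc]
      _ = (B * B') * blk ((a + d) / 2) k ((a + d) / 2) μ := by rw [h2, mul_assoc]
  · have h3 : (a - d - 2 * β) * (a - d + 2 * β) = 0 := by linear_combination heq
    rcases mul_eq_zero.1 h3 with h4 | h4
    · exact para B a β d μ hB hβ0.ne' hTB (by linarith)
    · obtain ⟨B₂, a₂, d₂, μ₂, hB₂, hTB₂, ha₂, hd₂⟩ := shape (-1) (by norm_num)
      have e1 : a₂ = a := by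
        have : (a₂ : ℂ) = a := by rw [ha₂, haS]
        exact_mod_cast this
      have e2 : d₂ = d := by
        have : (d₂ : ℂ) = d := by rw [hd₂, hdS]
        exact_mod_cast this
      rw [e1, e2] at hTB₂
      have hneg : (-1 : ℝ) * β < 0 := by linarith
      exact para B₂ a (-1 * β) d μ₂ hB₂ hneg.ne hTB₂ (by linarith)

end

end Pool.Agent.Lib.MP_6ff8d9_an.N2
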